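import Pool.Agent.H93.EN.Targets4
import Pool.Agent.H7.BN.F1
import Pool.Agent.H42.BN.V1
import Pool.Agent.H79.BN.Triv

/-!
# Bright corners: the corners of a strictly convex table
-/

namespace Pool.Agent.H31.EN

open MeasureTheory Set Metric Filter Topology Pool.Agent.H93.EN
open Pool.Agent.H93.BL hiding T_B1 T_B2 T_B3 T_SB T_SC
open Pool.Agent.H79.BN (ConvPos Cyc ed ang dx dr)

theorem cxc : T_CXC := by
  intro n _ P hn hC hP i j α hcor
  obtain ⟨hq, hα0, hα2, hu, -⟩ := hcor
  obtain ⟨-, hinj, -, -, -⟩ := (Pool.Agent.H42.BN.v1 Pool.Agent.H79.BN.v0) n P.p hn hP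
  obtain ⟨hang0, hangπ, hdr, -, hed, -⟩ := (Pool.Agent.H7.BN.f1 Pool.Agent.H79.BN.v0 (Pool.Agent.H42.BN.v1 Pool.Agent.H79.BN.v0)) n P.p hn hP i
  have hj : j = i + 1 := by
    apply hinj
    rw [← hq, hC i]
  subst hj
  have hlen : ∀ k, P.len k = ‖ed P.p k‖ := by
    intro k
    simp only [Polygon.len, hC k, ed]
  have hlpos : ∀ k, 0 < ‖ed P.p k‖ := by
    intro k
    rw [← hlen k]
    exact norm_pos_iff.2 (sub_ne_zero.2 (P.ne k).symm)
  have huk : ∀ k, P.u k = ed P.p k / (‖ed P.p k‖ : ℂ) := by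
    intro k
    simp only [Polygon.u, hlen k, hC k, ed]
  have hdr1 : P.u (i + 1) = dr P.p i := huk (i + 1)
  have hui : -P.u i = dx P.p i (ang P.p i) := by
    have h0 : (‖ed P.p i‖ : ℂ) ≠ 0 := by
      exact_mod_cast (hlpos i).ne'
    rw [huk i]
    nth_rewrite 1 [hed]
    rw [neg_div, neg_neg, mul_div_cancel_left₀ _ h0]
  have hdr0 : dr P.p i ≠ 0 := by
    intro h
    rw [h, norm_zero] at hdr
    exact zero_ne_one hdr
  have he : Complex.exp ((α : ℂ) * Complex.I) = Complex.exp ((ang P.p i : ℂ) * Complex.I) := by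
    have h1 : uv P (i + 1) α = dx P.p i (ang P.p i) := by rw [← hu, hui]
    simp only [uv, dx, hdr1] at h1
    rw [mul_comm (Complex.exp _)] at h1
    exact mul_left_cancel₀ hdr0 h1
  have hα : α = ang P.p i := by
    obtain ⟨m, hm⟩ := Complex.exp_eq_exp_iff_exists_int.1 he
    have hm' : α = ang P.p i + m * (2 * Real.pi) := by
      have h := congrArg Complex.im hm
      simpa using h
    have hπ := Real.pi_pos
    have h1 : m < 1 := by
      by_contra hcon
      have : (1 : ℝ) ≤ m := by exact_mod_cast not_lt.1 hcon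
      nlinarith
    have h2 : -1 < m := by
      by_contra hcon
      have : (m : ℝ) ≤ -1 := by exact_mod_cast not_lt.1 hcon
      nlinarith
    have h3 : m = 0 := by omega
    rw [h3] at hm'
    simpa using hm'
  exact ⟨rfl, hα, by rw [hα]; exact hangπ⟩

end Pool.Agent.H31.EN
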