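import Pool.Agent.H93.EN.Targets4

/-!
# Bright corners: the energy inequality
-/

namespace Pool.Agent.H31.EN

open MeasureTheory Set Metric Filter Topology Pool.Agent.H93.EN
open Pool.Agent.H93.BL hiding T_B1 T_B2 T_B3 T_SB T_SC
open scoped ContDiff

theorem en (h1 : T_CUT) (h2 : T_SEQ) (h3 : T_PW) (h4 : T_EN1) (h5 : T_INT) (h6 : T_FUB) :
    T_EN := by
  intro ι hfin D
  obtain ⟨hΩm, hΩf, hf0m, hf0b, hrm, hrl, hint⟩ := h5 ι D
  obtain ⟨C₂, hC₂, hPW⟩ := h3 ι D
  obtain ⟨C₁, hC₁, R₀, hR₀, hcut⟩ := h1 D.B D.P.Ω D.Bfin D.Bne D.P.isBounded D.P.isOpen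
  have hκ := D.κpos
  have hκ4 := D.κle
  refine ⟨2 * Real.pi * C₁ * C₂, by positivity, D.κ / 10, by positivity, R₀, hR₀, ?_⟩
  intro R hR δ hδ hδR m
  obtain ⟨η, hη2, hηc, hη01, hηs, hη1, hηf, hηr⟩ := hcut R hR
  have hRpos : 0 < R := hR.1
  have hsup : ∀ x ∈ tsupport η, 9 * δ < D.κ * D.rho x := by
    intro x hx
    have h : R ≤ D.rho x := hηs x hx
    have h' : D.κ * R ≤ D.κ * D.rho x := mul_le_mul_of_nonneg_left h hκ.le
    have h'' : 0 < D.κ * R := by positivity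
    linarith
  have hstep := h4 ι D δ hδ η hη2 hηc hsup
  -- the set where everything lives
  set S : Set ℂ := D.P.Ω ∩ tsupport η with hS
  have hSΩ : S ⊆ D.P.Ω := inter_subset_left
  have hSm : MeasurableSet S := hΩm.inter (isClosed_tsupport η).measurableSet
  have hSf : volume S < ⊤ := lt_of_le_of_lt (measure_mono hSΩ) hΩf
  have hSO : S ⊆ D.OM δ := by
    intro x hx
    refine ⟨hx.1, ?_⟩
    have := hsup x hx.2
    linarith
  have hSint := hint δ hδ S hSO hSm
  have hηcont : Continuous η := hη2.continuous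
  have hηfc : Continuous (fderiv ℝ η) := hη2.continuous_fderiv (by norm_num)
  have hη0 : ∀ x ∈ D.P.Ω \ S, η x = 0 := by
    intro x hx
    apply image_eq_zero_of_notMem_tsupport
    intro h
    exact hx.2 ⟨hx.1, h⟩
  have hηf0 : ∀ x ∈ D.P.Ω \ S, fderiv ℝ η x = 0 := by
    intro x hx
    apply fderiv_of_notMem_tsupport
    intro h
    exact hx.2 ⟨hx.1, h⟩
  have hhi : ∀ k : ℤ, IntegrableOn (fun x => ‖D.h δ k x‖) S := fun k => (hSint.2 k).1
  have hhi2 : ∀ k : ℤ, IntegrableOn (fun x => ‖D.h δ k x‖ ^ 2) S := fun k => (hSint.2 k).2.1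
  have hui : ∀ k : ℤ, IntegrableOn (D.u δ k) S := fun k => (hSint.2 k).2.2
  -- the energies
  have hHS : ∀ k : ℤ, ∫ x in D.P.Ω, η x * ‖D.h δ k x‖ ^ 2 = ∫ x in S, η x * ‖D.h δ k x‖ ^ 2 := by
    intro k
    apply setIntegral_eq_of_subset_of_forall_sdiff_eq_zero hΩm hSΩ
    intro x hx
    rw [hη0 x hx, zero_mul]
  have hHi : ∀ k : ℤ, IntegrableOn (fun x => η x * ‖D.h δ k x‖ ^ 2) S := by
    intro k
    refine Integrable.mono' (hhi2 k) ?_ ?_
    · exact hηcont.aestronglyMeasurable.mul (hhi2 k).aestronglyMeasurable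
    · refine Eventually.of_forall fun x => ?_
      rw [Real.norm_eq_abs, abs_of_nonneg (mul_nonneg (hη01 x).1 (by positivity))]
      exact mul_le_of_le_one_left (by positivity) (hη01 x).2
  have hHiΩ : ∀ k : ℤ, IntegrableOn (fun x => η x * ‖D.h δ k x‖ ^ 2) D.P.Ω := by
    intro k
    refine (integrableOn_congr_fun (g := fun x => η x * ‖D.h δ k x‖ ^ 2)
      (fun x _ => rfl) hΩm).1 ?_
    have : D.P.Ω = S ∪ (D.P.Ω \ S) := by rw [union_sdiff_cancel hSΩ]
    rw [this]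
    refine (hHi k).union ?_
    refine (integrableOn_congr_fun (g := fun x => (0 : ℝ)) (fun x hx => ?_) (hΩm.diff hSm)).2
      integrableOn_zero
    simp only [hη0 x hx, zero_mul]
  set H : ℤ → ℝ := fun k => ∫ x in D.P.Ω, η x * ‖D.h δ k x‖ ^ 2 with hH
  have hH0 : ∀ k, 0 ≤ H k := by
    intro k
    exact integral_nonneg fun x => mul_nonneg (hη01 x).1 (by positivity)
  have hHsum : ∀ s : Finset ℤ, ∑ k ∈ s, H k ≤ C₂ / δ ^ 2 * (volume S).toReal := by
    intro s
    have e1 : ∑ k ∈ s, H k = ∫ x in S, ∑ k ∈ s, η x * ‖D.h δ k x‖ ^ 2 := by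
      rw [integral_finsetSum s fun k _ => hHi k]
      exact Finset.sum_congr rfl fun k _ => hHS k
    rw [e1]
    have e2 : ∫ x in S, ∑ k ∈ s, η x * ‖D.h δ k x‖ ^ 2 ≤ ∫ _x in S, C₂ / δ ^ 2 := by
      refine setIntegral_mono_on (integrable_finsetSum s fun k _ => hHi k)
        (integrableOn_const hSf.ne) hSm ?_
      intro x hx
      rw [← Finset.mul_sum]
      have h := (hPW δ hδ x (hSO hx) s).2
      have h0 : 0 ≤ ∑ k ∈ s, ‖D.h δ k x‖ ^ 2 := Finset.sum_nonneg fun k _ => by positivity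
      calc η x * ∑ k ∈ s, ‖D.h δ k x‖ ^ 2 ≤ 1 * ∑ k ∈ s, ‖D.h δ k x‖ ^ 2 :=
            mul_le_mul_of_nonneg_right (hη01 x).2 h0
        _ ≤ C₂ / δ ^ 2 := by rw [one_mul]; exact h
    refine e2.trans (le_of_eq ?_)
    rw [setIntegral_const, smul_eq_mul, mul_comm]
    rfl
  have hHt : Tendsto H cofinite (𝓝 0) :=
    (summable_of_sum_le hH0 hHsum).tendsto_cofinite_zero
  -- the differences
  set g : ℤ → ℂ → ℝ := fun k x =>
    ‖D.u δ k x‖ * (‖D.h δ (k + 1) x‖ + ‖D.h δ (k - 1) x‖) with hg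
  have hg0 : ∀ k x, 0 ≤ g k x := fun k x => by positivity
  set d : ℤ → ℝ := fun k => 2 * ∫ x in D.P.Ω, ‖fderiv ℝ η x‖ * g k x with hd
  have hd0 : ∀ k, 0 ≤ d k := by
    intro k
    refine mul_nonneg (by norm_num) (integral_nonneg fun x => ?_)
    exact mul_nonneg (norm_nonneg _) (hg0 k x)
  set Q : ℂ → ℝ := fun x => ∫ y in ball x δ ∩ D.P.Ω, D.f0 y with hQ
  have hQ0 : ∀ x, 0 ≤ Q x := fun x => integral_nonneg fun y => (hf0b y).1
  have hf0i : IntegrableOn D.f0 D.P.Ω := by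
    refine Measure.integrableOn_of_bounded (M := 1) hΩf.ne hf0m.aestronglyMeasurable ?_
    refine Eventually.of_forall fun x => ?_
    rw [Real.norm_eq_abs, abs_of_nonneg (hf0b x).1]
    exact (hf0b x).2
  have hQ1 : ∀ x, Q x ≤ ∫ y in D.P.Ω, D.f0 y := by
    intro x
    refine setIntegral_mono_set hf0i (Eventually.of_forall fun y => (hf0b y).1) ?_
    exact LE.le.eventuallyLE inter_subset_right
  have hgs : ∀ x ∈ S, ∀ s : Finset ℤ, ∑ k ∈ s, g k x ≤ C₂ / δ ^ 3 * Q x := fun x hx s =>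
    (hPW δ hδ x (hSO hx) s).1
  have hdS : ∀ k, ∫ x in D.P.Ω, ‖fderiv ℝ η x‖ * g k x = ∫ x in S, ‖fderiv ℝ η x‖ * g k x := by
    intro k
    apply setIntegral_eq_of_subset_of_forall_sdiff_eq_zero hΩm hSΩ
    intro x hx
    rw [hηf0 x hx, norm_zero, zero_mul]
  have hdi : ∀ k, IntegrableOn (fun x => ‖fderiv ℝ η x‖ * g k x) S := by
    intro k
    refine Integrable.mono' (g := fun _ => C₁ / R * (C₂ / δ ^ 3 * ∫ y in D.P.Ω, D.f0 y))
      (integrableOn_const hSf.ne) ?_ ?_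
    · exact hηfc.norm.aestronglyMeasurable.mul ((hui k).aestronglyMeasurable.norm.mul
        ((hhi (k + 1)).aestronglyMeasurable.add (hhi (k - 1)).aestronglyMeasurable))
    · refine (ae_restrict_iff' hSm).2 (Eventually.of_forall fun x hx => ?_)
      have e1 : g k x ≤ C₂ / δ ^ 3 * ∫ y in D.P.Ω, D.f0 y := by
        have h := hgs x hx {k}
        rw [Finset.sum_singleton] at h
        exact h.trans (mul_le_mul_of_nonneg_left (hQ1 x) (by positivity))
      rw [Real.norm_eq_abs, abs_of_nonneg (mul_nonneg (norm_nonneg _) (hg0 k x))]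
      exact mul_le_mul (hηf x hx.1) e1 (hg0 k x) (by positivity)
  -- measurability of the disc integrals
  have hQm : StronglyMeasurable Q := by
    have hset : MeasurableSet {p : ℂ × ℂ | dist p.2 p.1 < δ ∧ p.2 ∈ D.P.Ω} :=
      (measurableSet_lt (measurable_snd.dist measurable_fst) measurable_const).inter
        (measurable_snd hΩm)
    have hme : Measurable (indicator {p : ℂ × ℂ | dist p.2 p.1 < δ ∧ p.2 ∈ D.P.Ω}
        (fun p => D.f0 p.2)) := (hf0m.comp measurable_snd).indicator hset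
    have h := hme.stronglyMeasurable.integral_prod_right' (ν := (volume : Measure ℂ))
    have e : Q = fun x => ∫ y, (indicator {p : ℂ × ℂ | dist p.2 p.1 < δ ∧ p.2 ∈ D.P.Ω}
        (fun p => D.f0 p.2)) (x, y) := by
      funext x
      simp only [hQ]
      rw [← integral_indicator (measurableSet_ball.inter hΩm)]
      refine integral_congr_ae (Eventually.of_forall fun y => ?_)
      by_cases hy : y ∈ ball x δ ∩ D.P.Ω
      · have hy' : (x, y) ∈ {p : ℂ × ℂ | dist p.2 p.1 < δ ∧ p.2 ∈ D.P.Ω} := hy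
        exact (indicator_of_mem hy D.f0).trans (indicator_of_mem hy' (fun p : ℂ × ℂ => D.f0 p.2)).symm
      · have hy' : (x, y) ∉ {p : ℂ × ℂ | dist p.2 p.1 < δ ∧ p.2 ∈ D.P.Ω} := hy
        exact (indicator_of_notMem hy D.f0).trans
          (indicator_of_notMem hy' (fun p : ℂ × ℂ => D.f0 p.2)).symm
    rw [e]
    exact h
  set T : Set ℂ := D.Sh R (2 * R) with hT
  have hTΩ : T ⊆ D.P.Ω := fun x hx => hx.1
  have hTm : MeasurableSet T :=
    hΩm.inter ((measurableSet_le measurable_const hrm).inter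
      (measurableSet_le hrm measurable_const))
  have hTf : volume T < ⊤ := lt_of_le_of_lt (measure_mono hTΩ) hΩf
  have hQT : IntegrableOn Q T := by
    refine Measure.integrableOn_of_bounded (M := ∫ y in D.P.Ω, D.f0 y) hTf.ne
      hQm.aestronglyMeasurable ?_
    refine Eventually.of_forall fun x => ?_
    rw [Real.norm_eq_abs, abs_of_nonneg (hQ0 x)]
    exact hQ1 x
  set G : ℂ → ℝ := indicator T (fun x => C₁ / R * (C₂ / δ ^ 3) * Q x) with hG
  have hG0 : ∀ x, 0 ≤ G x := by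
    intro x
    refine indicator_nonneg (fun y _ => ?_) x
    have := hQ0 y
    positivity
  have hGi : Integrable G := (integrable_indicator_iff hTm).2 (hQT.const_mul _)
  have hFG : ∀ x ∈ S, ∀ s : Finset ℤ, ‖fderiv ℝ η x‖ * ∑ k ∈ s, g k x ≤ G x := by
    intro x hx s
    by_cases hf : fderiv ℝ η x = 0
    · rw [hf, norm_zero, zero_mul]
      exact hG0 x
    · have hxT : x ∈ T := ⟨hx.1, hηr x hx.1 hf⟩
      have e0 : G x = C₁ / R * (C₂ / δ ^ 3) * Q x := indicator_of_mem hxT _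
      rw [e0, mul_assoc]
      exact mul_le_mul (hηf x hx.1) (hgs x hx s) (Finset.sum_nonneg fun k _ => hg0 k x)
        (by positivity)
  have hsub : D.Sh (R - δ) (2 * R + δ) ⊆ D.Sh (R / 2) (3 * R) := by
    have hδ2 : δ ≤ R / 2 := by
      have : D.κ / 10 * R ≤ 1 / 2 * R := mul_le_mul_of_nonneg_right (by linarith) hRpos.le
      linarith
    intro x hx
    exact ⟨hx.1, by linarith [hx.2.1], by linarith [hx.2.2]⟩
  have hShm : MeasurableSet (D.Sh (R / 2) (3 * R)) :=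
    hΩm.inter ((measurableSet_le measurable_const hrm).inter
      (measurableSet_le hrm measurable_const))
  have hSh3 : D.Sh (R / 2) (3 * R) ⊆ D.P.Ω := fun x hx => hx.1
  have hQb : ∫ x in T, Q x ≤ Real.pi * δ ^ 2 * ∫ y in D.Sh (R / 2) (3 * R), D.f0 y := by
    refine (h6 ι D R (2 * R) δ hδ).trans (mul_le_mul_of_nonneg_left ?_ (by positivity))
    exact setIntegral_mono_set (hf0i.mono_set hSh3)
      (Eventually.of_forall fun y => (hf0b y).1) (LE.le.eventuallyLE hsub)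
  have hdsum : ∀ s : Finset ℤ, ∑ k ∈ s, d k ≤
      2 * Real.pi * C₁ * C₂ / (δ * R) * ∫ y in D.Sh (R / 2) (3 * R), D.f0 y := by
    intro s
    have e1 : ∑ k ∈ s, d k = 2 * ∫ x in S, ‖fderiv ℝ η x‖ * ∑ k ∈ s, g k x := by
      have e2 : ∀ x, ‖fderiv ℝ η x‖ * ∑ k ∈ s, g k x = ∑ k ∈ s, ‖fderiv ℝ η x‖ * g k x :=
        fun x => Finset.mul_sum _ _ _
      simp only [e2]
      rw [integral_finsetSum s fun k _ => hdi k, Finset.mul_sum]
      exact Finset.sum_congr rfl fun k _ => by rw [hd]; simp only; rw [hdS k]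
    have e3 : ∫ x in S, ‖fderiv ℝ η x‖ * ∑ k ∈ s, g k x ≤ ∫ x in S, G x := by
      refine setIntegral_mono_on ?_ hGi.integrableOn hSm fun x hx => hFG x hx s
      have e2 : (fun x => ‖fderiv ℝ η x‖ * ∑ k ∈ s, g k x) =
          fun x => ∑ k ∈ s, ‖fderiv ℝ η x‖ * g k x := by
        funext x
        exact Finset.mul_sum _ _ _
      rw [e2]
      exact integrable_finsetSum s fun k _ => hdi k
    have e4 : ∫ x in S, G x ≤ ∫ x, G x :=
      setIntegral_le_integral hGi (Eventually.of_forall hG0)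
    have e5 : ∫ x, G x = C₁ / R * (C₂ / δ ^ 3) * ∫ x in T, Q x := by
      rw [hG, integral_indicator hTm, integral_const_mul]
    have e6 : C₁ / R * (C₂ / δ ^ 3) * ∫ x in T, Q x ≤
        C₁ / R * (C₂ / δ ^ 3) * (Real.pi * δ ^ 2 * ∫ y in D.Sh (R / 2) (3 * R), D.f0 y) :=
      mul_le_mul_of_nonneg_left hQb (by positivity)
    rw [e1]
    calc 2 * ∫ x in S, ‖fderiv ℝ η x‖ * ∑ k ∈ s, g k x
        ≤ 2 * (C₁ / R * (C₂ / δ ^ 3) *
          (Real.pi * δ ^ 2 * ∫ y in D.Sh (R / 2) (3 * R), D.f0 y)) := by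
          linarith
      _ = 2 * Real.pi * C₁ * C₂ / (δ * R) * ∫ y in D.Sh (R / 2) (3 * R), D.f0 y := by
          field_simp
  have hHm := h2 H d _ hH0 hd0 hHt (fun k => hstep k) hdsum m
  refine le_trans ?_ hHm
  have hOm : MeasurableSet (D.Out (2 * R)) := hΩm.inter (measurableSet_le measurable_const hrm)
  have hOΩ : D.Out (2 * R) ⊆ D.P.Ω := fun x hx => hx.1
  have e7 : ∫ x in D.Out (2 * R), ‖D.h δ m x‖ ^ 2 =
      ∫ x in D.Out (2 * R), η x * ‖D.h δ m x‖ ^ 2 := by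
    refine setIntegral_congr_fun hOm fun x hx => ?_
    rw [hη1 x hx.1 hx.2, one_mul]
  rw [e7]
  exact setIntegral_mono_set (hHiΩ m)
    (Eventually.of_forall fun x => mul_nonneg (hη01 x).1 (by positivity))
    (LE.le.eventuallyLE hOΩ)

end Pool.Agent.H31.EN
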